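import Mathlib

set_option autoImplicit false

namespace Pool.Agent.Results.MP_eb30e1_co.Q1

open Finset

/-- `R` is an order relation on `Fin n` -/
def IsOrd {n : ℕ} (R : Finset (Fin n × Fin n)) : Prop :=
  (∀ x, (x, x) ∈ R) ∧ (∀ x y, (x, y) ∈ R → (y, x) ∈ R → x = y) ∧
    ∀ x y z, (x, y) ∈ R → (y, z) ∈ R → (x, z) ∈ R

/-- the fixed point property -/
def FPP {n : ℕ} (R : Finset (Fin n × Fin n)) : Prop :=
  ∀ f : Fin n → Fin n, (∀ x y, (x, y) ∈ R → (f x, f y) ∈ R) → ∃ x, f x = x

/-- `R 0, …, R (n.choose 2)` is a maximal chain of order relations -/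
def MaxChain (n : ℕ) (R : ℕ → Finset (Fin n × Fin n)) : Prop :=
  (∀ i ≤ n.choose 2, IsOrd (R i)) ∧ R 0 = univ.diag ∧
    (∀ x y, (x, y) ∈ R (n.choose 2) ∨ (y, x) ∈ R (n.choose 2)) ∧
    ∀ i < n.choose 2, R i ⊆ R (i + 1) ∧ (R (i + 1)).card = (R i).card + 1

open Classical in
/-- the number of members with the fixed point property -/
noncomputable def numFPP (n : ℕ) (R : ℕ → Finset (Fin n × Fin n)) : ℕ :=
  ((range (n.choose 2 + 1)).filter (fun i => FPP (R i))).card

def inc {n : ℕ} (R : Finset (Fin n × Fin n)) (z : Fin n) : Finset (Fin n) :=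
  univ.filter (fun w => (z, w) ∉ R ∧ (w, z) ∉ R)

lemma free {n : ℕ} {R : Finset (Fin n × Fin n)} (h : IsOrd R) (hf : ¬ FPP R) :
    ∃ f : Fin n → Fin n, (∀ x y, (x, y) ∈ R → (f x, f y) ∈ R) ∧ ∀ z, f z ∈ inc R z := by
  simp only [FPP, not_forall, not_exists] at hf
  obtain ⟨f, hm, hn⟩ := hf
  refine ⟨f, hm, fun z => ?_⟩
  simp only [inc, mem_filter, mem_univ, true_and]
  constructor
  · intro hz
    obtain ⟨w, hw, hmax⟩ := exists_max_image (univ.filter (fun w => (w, f w) ∈ R))
      (fun w => (univ.filter (fun u => (u, w) ∈ R)).card) ⟨z, by simpa using hz⟩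
    have hw' : (w, f w) ∈ R := by simpa using hw
    have h1 := hmax (f w) (by simpa using hm _ _ hw')
    have h2 : univ.filter (fun u => (u, w) ∈ R) = univ.filter (fun u => (u, f w) ∈ R) :=
      eq_of_subset_of_card_le (fun u hu => by
        simp only [mem_filter, mem_univ, true_and] at hu ⊢; exact h.2.2 _ _ _ hu hw') h1
    have h3 : f w ∈ univ.filter (fun u => (u, w) ∈ R) := by rw [h2]; simpa using h.1 _
    exact hn w (h.2.1 _ _ (by simpa using h3) hw')
  · intro hz
    obtain ⟨w, hw, hmax⟩ := exists_max_image (univ.filter (fun w => (f w, w) ∈ R))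
      (fun w => (univ.filter (fun u => (w, u) ∈ R)).card) ⟨z, by simpa using hz⟩
    have hw' : (f w, w) ∈ R := by simpa using hw
    have h1 := hmax (f w) (by simpa using hm _ _ hw')
    have h2 : univ.filter (fun u => (w, u) ∈ R) = univ.filter (fun u => (f w, u) ∈ R) :=
      eq_of_subset_of_card_le (fun u hu => by
        simp only [mem_filter, mem_univ, true_and] at hu ⊢; exact h.2.2 _ _ _ hw' hu) h1
    have h3 : f w ∈ univ.filter (fun u => (w, u) ∈ R) := by rw [h2]; simpa using h.1 _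
    exact hn w (h.2.1 _ _ hw' (by simpa using h3))

lemma cnt {n : ℕ} {R : Finset (Fin n × Fin n)} (h : IsOrd R) :
    ∑ z, (inc R z).card + 2 * R.card = n * n + n := by
  have e1 : ∑ z, (inc R z).card = ∑ z : Fin n, ∑ w : Fin n,
      if (z, w) ∉ R ∧ (w, z) ∉ R then 1 else 0 := by
    simp only [inc, card_filter]
  have e2 : R.card = ∑ z : Fin n, ∑ w : Fin n, if (z, w) ∈ R then 1 else 0 := by
    rw [← Fintype.sum_prod_type']; simp
  have e3 : R.card = ∑ z : Fin n, ∑ w : Fin n, if (w, z) ∈ R then 1 else 0 := by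
    rw [sum_comm]; exact e2
  have e4 : n * n + n = ∑ z : Fin n, ∑ w : Fin n, (1 + if z = w then 1 else 0) := by
    simp [sum_add_distrib, mul_add]
  rw [two_mul, e1, e4]
  nth_rewrite 1 [e2]
  rw [e3, ← sum_add_distrib, ← sum_add_distrib]
  refine sum_congr rfl fun z _ => ?_
  rw [← sum_add_distrib, ← sum_add_distrib]
  refine sum_congr rfl fun w _ => ?_
  by_cases e : z = w
  · subst e; simp [h.1 z]
  · by_cases a : (z, w) ∈ R <;> by_cases b : (w, z) ∈ R
    · exact absurd (h.2.1 _ _ a b) e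
    all_goals simp [a, b, e]

lemma two_choose (n : ℕ) : 2 * n.choose 2 + n = n * n := by
  induction n with
  | zero => simp
  | succ n ih => rw [Nat.choose_succ_succ, Nat.choose_one_right]; nlinarith

lemma adj {n : ℕ} {A B : Finset (Fin n × Fin n)} (hA : IsOrd A) (hB : IsOrd B) (hs : A ⊆ B)
    (hc : B.card = A.card + 1) (hn : ∑ z, (inc B z).card = n) (hfB : ¬ FPP B) : FPP A := by
  by_contra hfA
  obtain ⟨g, -, hg⟩ := free hB hfB
  obtain ⟨f, hm, hf⟩ := free hA hfA
  have h1 : ∀ z, (inc B z).card = 1 := by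
    have := (sum_eq_sum_iff_of_le (s := univ) (f := fun _ : Fin n => 1)
      (g := fun z => (inc B z).card) (fun z _ => card_pos.2 ⟨_, hg z⟩)).1 (by simp [hn])
    exact fun z => (this z (mem_univ _)).symm
  have uq : ∀ z u w, u ∈ inc B z → w ∈ inc B z → u = w := fun z u w hu hw =>
    card_le_one.1 (h1 z).le u hu w hw
  obtain ⟨⟨x, y⟩, hxy⟩ : ∃ p, B \ A = {p} := card_eq_one.1 (by rw [card_sdiff_of_subset hs]; omega)
  have hxyB : (x, y) ∈ B ∧ (x, y) ∉ A := by
    have : (x, y) ∈ B \ A := by rw [hxy]; simp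
    simpa using this
  have tr : ∀ u w, (u, w) ∈ B → u ≠ x ∨ w ≠ y → (u, w) ∈ A := by
    intro u w h hne
    by_contra h'
    have : (u, w) ∈ B \ A := mem_sdiff.2 ⟨h, h'⟩
    rw [hxy] at this
    simp only [mem_singleton, Prod.mk.injEq] at this
    tauto
  have sy : ∀ z w, w ∈ inc B z → z ∈ inc B w := by
    intro z w; simp only [inc, mem_filter, mem_univ, true_and]; tauto
  have gx := hg x
  have gy := hg y
  have mem : ∀ z w, w ∈ inc B z ↔ (z, w) ∉ B ∧ (w, z) ∉ B := by simp [inc]
  have a1 : g x ≠ x := fun e => ((mem _ _).1 gx).1 (e.symm ▸ hB.1 x)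
  have a2 : g x ≠ y := fun e => ((mem _ _).1 gx).1 (e.symm ▸ hxyB.1)
  have a3 : g y ≠ y := fun e => ((mem _ _).1 gy).1 (e.symm ▸ hB.1 y)
  have a4 : g y ≠ x := fun e => ((mem _ _).1 gy).2 (e.symm ▸ hxyB.1)
  have up : ∀ z, z ≠ x → z ≠ y → f z ∈ inc B z := by
    intro z h1 h2
    have := hf z
    simp only [inc, mem_filter, mem_univ, true_and] at this ⊢
    exact ⟨fun h => this.1 (tr _ _ h (Or.inl h1)), fun h => this.2 (tr _ _ h (Or.inr h2))⟩
  have fx : f (g x) = x := uq _ _ _ (up _ a1 a2) (sy _ _ gx)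
  have fy : f (g y) = y := uq _ _ _ (up _ a4 a3) (sy _ _ gy)
  have cmp : (g x, g y) ∈ B ∨ (g y, g x) ∈ B := by
    by_contra hne
    exact a4 (uq (g x) _ _ ((mem _ _).2 (not_or.1 hne)) (sy _ _ gx))
  rcases cmp with h | h
  · have := hm _ _ (tr _ _ h (Or.inl a1))
    rw [fx, fy] at this
    exact hxyB.2 this
  · have := hm _ _ (tr _ _ h (Or.inl a4))
    rw [fx, fy] at this
    have e := hB.2.1 _ _ hxyB.1 (hs this)
    subst e
    exact hxyB.2 this

lemma lower {n : ℕ} (hn : 3 ≤ n) {R : ℕ → Finset (Fin n × Fin n)} (h : MaxChain n R) :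
    n / 2 + 1 ≤ numFPP n R := by
  classical
  obtain ⟨ho, h0, -, hs⟩ := h
  have hN := two_choose n
  have hN' : n ≤ n.choose 2 := by nlinarith
  set N := n.choose 2
  have hc : ∀ i ≤ N, (R i).card = n + i := by
    intro i
    induction i with
    | zero => intro _; simp [h0]
    | succ i ih => intro hi; rw [(hs i hi).2, ih (by omega)]; ring
  have hsum : ∀ i ≤ N, ∑ z, (inc (R i) z).card + 2 * i = 2 * N := by
    intro i hi
    have := cnt (ho i hi)
    rw [hc i hi] at this
    omega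
  have hF : ∀ i ≤ N, 2 * N < n + 2 * i → FPP (R i) := by
    intro i hi hlt
    by_contra hf
    obtain ⟨g, -, hg⟩ := free (ho i hi) hf
    have := sum_le_sum (s := univ) (f := fun _ : Fin n => 1)
      (g := fun z => (inc (R i) z).card) (fun z _ => card_pos.2 ⟨_, hg z⟩)
    simp only [sum_const, card_univ, Fintype.card_fin, smul_eq_mul, mul_one] at this
    have := hsum i hi
    omega
  have key : ∃ j, j ≤ N - n / 2 ∧ FPP (R j) := by
    by_cases hf : FPP (R (N - n / 2))
    · exact ⟨_, le_rfl, hf⟩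
    · have hev : ¬ 2 * N < n + 2 * (N - n / 2) := fun h => hf (hF _ (by omega) h)
      obtain ⟨j, hj⟩ : ∃ j, N - n / 2 = j + 1 := ⟨N - n / 2 - 1, by omega⟩
      rw [hj] at hf
      have := hsum (j + 1) (by omega)
      exact ⟨j, by omega, adj (ho j (by omega)) (ho (j + 1) (by omega)) (hs j (by omega)).1
        (hs j (by omega)).2 (by omega) hf⟩
  obtain ⟨j, hj, hjF⟩ := key
  have hsub : insert j (Ioc (N - n / 2) N) ⊆ (range (N + 1)).filter (fun i => FPP (R i)) := by
    intro i hi
    simp only [mem_insert, mem_Ioc, mem_filter, mem_range] at hi ⊢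
    rcases hi with rfl | hi
    · exact ⟨by omega, hjF⟩
    · exact ⟨by omega, hF i hi.2 (by omega)⟩
  have := card_le_card hsub
  rw [card_insert_of_notMem (by simp; omega), Nat.card_Ioc] at this
  unfold numFPP
  have e : N - (N - n / 2) = n / 2 := by omega
  rw [e] at this
  convert this

lemma step {n : ℕ} {A B : Finset (Fin n × Fin n)} (hA : IsOrd A) (hB : IsOrd B) (hs : A ⊆ B)
    (hne : A ≠ B) : ∃ C, IsOrd C ∧ A ⊆ C ∧ C ⊆ B ∧ C.card = A.card + 1 := by
  let r : Fin n → ℤ := fun w => (univ.filter (fun u => (u, w) ∈ B)).card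
  have hr : ∀ u w, (u, w) ∈ B → u ≠ w → r u < r w := by
    intro u w h hne
    simp only [r, Nat.cast_lt]
    refine card_lt_card ⟨fun a ha => ?_, fun hsub => hne ?_⟩
    · simp only [mem_filter, mem_univ, true_and] at ha ⊢; exact hB.2.2 _ _ _ ha h
    · have : w ∈ univ.filter (fun a => (a, u) ∈ B) := hsub (by simpa using hB.1 w)
      exact hB.2.1 _ _ h (by simpa using this)
  obtain ⟨⟨x, y⟩, hxy, hmax⟩ := exists_max_image (B \ A) (fun p => r p.2 - r p.1)
    (sdiff_nonempty.2 (fun h => hne (Subset.antisymm hs h)))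
  obtain ⟨hxB, hxA⟩ := mem_sdiff.1 hxy
  have hsub : insert (x, y) A ⊆ B := insert_subset hxB hs
  refine ⟨insert (x, y) A, ⟨fun a => mem_insert_of_mem (hA.1 a),
    fun a b h1 h2 => hB.2.1 _ _ (hsub h1) (hsub h2), ?_⟩, subset_insert _ _, hsub,
    card_insert_of_notMem hxA⟩
  intro a b c h1 h2
  by_cases e1 : a = b
  · subst e1; exact h2
  by_cases e2 : b = c
  · subst e2; exact h1
  have h3 := hB.2.2 _ _ _ (hsub h1) (hsub h2)
  have l1 := hr _ _ (hsub h1) e1
  have l2 := hr _ _ (hsub h2) e2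
  by_contra hc
  have h4 := hmax (a, c) (mem_sdiff.2 ⟨h3, fun h => hc (mem_insert_of_mem h)⟩)
  simp only [mem_insert, Prod.mk.injEq] at h1 h2
  rcases h1 with ⟨rfl, rfl⟩ | h1
  · simp only at h4; omega
  rcases h2 with ⟨rfl, rfl⟩ | h2
  · simp only at h4; omega
  exact hc (mem_insert_of_mem (hA.2.2 _ _ _ h1 h2))

def LL (n : ℕ) : Finset (Fin n × Fin n) := univ.filter (fun p => p.1.val ≤ p.2.val)

def PP (n e : ℕ) : Finset (Fin n × Fin n) := univ.filter (fun p => p.1.val = p.2.val ∨
  (p.1.val < p.2.val ∧ p.2.val ≠ e ∧ ¬ (e < p.1.val ∧ p.2.val = p.1.val + 1 ∧ (p.1.val + e) % 2 = 1)))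

def QQ (n e : ℕ) : Finset (Fin n × Fin n) := (PP n e).filter (fun p => p.1.val = p.2.val ∨
  (p.1.val ≠ 1 ∧ p.2.val ≠ 1))

lemma upper {n e : ℕ} (he : 2 ≤ e) (he3 : e ≤ 3) (hen : e < n) (hp : (n + e) % 2 = 1) :
    ∃ R, MaxChain n R ∧ numFPP n R ≤ n / 2 + 1 := by
  classical
  have oL : IsOrd (LL n) := by
    refine ⟨fun x => ?_, fun x y => ?_, fun x y z => ?_⟩ <;>
      simp only [LL, mem_filter, mem_univ, true_and, Fin.ext_iff] <;> omega
  have oP : IsOrd (PP n e) := by
    refine ⟨fun x => ?_, fun x y => ?_, fun x y z => ?_⟩ <;>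
      simp only [PP, mem_filter, mem_univ, true_and, Fin.ext_iff, true_or] <;> omega
  have oQ : IsOrd (QQ n e) := by
    refine ⟨fun x => ?_, fun x y => ?_, fun x y z => ?_⟩ <;>
      simp only [QQ, PP, mem_filter, mem_univ, true_and, Fin.ext_iff, true_or] <;> omega
  have sQ : QQ n e ⊆ PP n e := filter_subset _ _
  have sP : PP n e ⊆ LL n := by
    intro p; simp only [LL, PP, mem_filter, mem_univ, true_and]; omega
  let Inv : Finset (Fin n × Fin n) → Prop := fun A => IsOrd A ∧
    (A ⊆ QQ n e ∨ (QQ n e ⊆ A ∧ A ⊆ PP n e) ∨ (PP n e ⊆ A ∧ A ⊆ LL n))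
  have st : ∀ A, ∃ C, Inv A → A ≠ LL n → Inv C ∧ A ⊆ C ∧ C.card = A.card + 1 := by
    intro A
    by_cases hI : Inv A ∧ A ≠ LL n
    swap
    · exact ⟨A, fun h1 h2 => absurd ⟨h1, h2⟩ hI⟩
    obtain ⟨⟨hA, hc⟩, hne⟩ := hI
    by_cases c1 : A ⊆ QQ n e ∧ A ≠ QQ n e
    · obtain ⟨C, h1, h2, h3, h4⟩ := step hA oQ c1.1 c1.2
      exact ⟨C, fun _ _ => ⟨⟨h1, Or.inl h3⟩, h2, h4⟩⟩
    have q : QQ n e ⊆ A := by
      rcases hc with h | h | h
      · have : A = QQ n e := by tauto
        rw [this]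
      · exact h.1
      · exact sQ.trans h.1
    by_cases c2 : A ⊆ PP n e ∧ A ≠ PP n e
    · obtain ⟨C, h1, h2, h3, h4⟩ := step hA oP c2.1 c2.2
      exact ⟨C, fun _ _ => ⟨⟨h1, Or.inr (Or.inl ⟨q.trans h2, h3⟩)⟩, h2, h4⟩⟩
    have q2 : PP n e ⊆ A ∧ A ⊆ LL n := by
      rcases hc with h | h | h
      · have : A = PP n e := by have := h.trans sQ; tauto
        rw [this]; exact ⟨le_rfl, sP⟩
      · have : A = PP n e := by tauto
        rw [this]; exact ⟨le_rfl, sP⟩
      · exact h
    obtain ⟨C, h1, h2, h3, h4⟩ := step hA oL q2.2 hne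
    exact ⟨C, fun _ _ => ⟨⟨h1, Or.inr (Or.inr ⟨q2.1.trans h2, h3⟩)⟩, h2, h4⟩⟩
  choose s hs using st
  have hN := two_choose n
  have cL : (LL n).card = n + n.choose 2 := by
    have h1 := cnt oL
    have h2 : ∑ z, (inc (LL n) z).card = 0 := by
      refine sum_eq_zero fun z _ => card_eq_zero.2 (filter_eq_empty_iff.2 fun w _ => ?_)
      simp only [LL, mem_filter, mem_univ, true_and]; omega
    omega
  let R : ℕ → Finset (Fin n × Fin n) := fun i => s^[i] univ.diag
  have hR : ∀ i ≤ n.choose 2, Inv (R i) ∧ (R i).card = n + i := by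
    intro i
    induction i with
    | zero =>
      intro _
      refine ⟨⟨⟨by simp [R], ?_, ?_⟩, Or.inl ?_⟩, by simp [R]⟩
      · intro x y h _; simpa [R] using h
      · intro x y z h1 h2
        have e1 : x = y := by simpa [R] using h1
        subst e1; exact h2
      · rintro ⟨x, y⟩ h
        have e1 : x = y := by simpa [R] using h
        subst e1; exact oQ.1 x
    | succ i ih =>
      intro hi
      obtain ⟨h1, h2⟩ := ih (by omega)
      have := hs (R i) h1 (fun h => by rw [h] at h2; omega)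
      have e1 : R (i + 1) = s (R i) := Function.iterate_succ_apply' _ _ _
      rw [e1]
      exact ⟨this.1, by omega⟩
  have sL : ∀ A, Inv A → A ⊆ LL n := by
    rintro A ⟨-, h | h | h⟩
    · exact h.trans (sQ.trans sP)
    · exact h.2.trans sP
    · exact h.2
  have cP : (LL n).card ≤ (PP n e).card + (n / 2 + 1) := by
    have h1 : (LL n \ PP n e).card ≤ (range (n / 2 + 1)).card := by
      apply card_le_card_of_injOn (fun p => if p.1.val < e then p.1.val else e + (p.1.val - e) / 2)
      · rintro ⟨x, y⟩ h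
        simp only [LL, PP, coe_sdiff, coe_filter, mem_univ, true_and, Set.mem_sdiff,
          Set.mem_ofPred_eq, coe_range, Set.mem_Iio] at h ⊢
        have := y.2
        split_ifs <;> omega
      · rintro ⟨x, y⟩ h ⟨x', y'⟩ h' hh
        simp only [LL, PP, coe_sdiff, coe_filter, mem_univ, true_and, Set.mem_sdiff,
          Set.mem_ofPred_eq, Prod.mk.injEq, Fin.ext_iff] at h h' hh ⊢
        split_ifs at hh <;> omega
    rw [card_sdiff_of_subset sP, card_range] at h1
    omega
  have nf : ∀ A, Inv A → A.card ≤ (PP n e).card → ¬ FPP A := by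
    rintro A ⟨hA, hc⟩ hcard hF
    have mid : QQ n e ⊆ A → A ⊆ PP n e → False := by
      intro h1 h2
      let f : Fin n → Fin n := fun x => ⟨if x.val < e then e else if x.val = e then 0 else
        if (x.val + e) % 2 = 1 then x.val + 1 else x.val - 1, by
          have := x.2; split_ifs <;> omega⟩
      obtain ⟨x, hx⟩ := hF f (fun x y h => h1 (by
        have := h2 h
        simp only [QQ, PP, f, mem_filter, mem_univ, true_and] at this ⊢
        split_ifs <;> omega))
      simp only [f, Fin.ext_iff] at hx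
      split_ifs at hx <;> omega
    rcases hc with h | h | h
    · let f : Fin n → Fin n := fun x => ⟨if x.val = 1 then 0 else 1, by split_ifs <;> omega⟩
      obtain ⟨x, hx⟩ := hF f (fun x y h' => by
        have := h h'
        simp only [QQ, mem_filter] at this
        have e1 : f x = f y := by
          simp only [f, Fin.ext_iff]; split_ifs <;> omega
        rw [e1]; exact hA.1 _)
      simp only [f, Fin.ext_iff] at hx
      split_ifs at hx <;> omega
    · exact mid h.1 h.2
    · have := eq_of_subset_of_card_le h.1 hcard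
      exact mid (sQ.trans h.1) (this ▸ le_rfl)
  refine ⟨R, ⟨fun i hi => (hR i hi).1.1, rfl, ?_, ?_⟩, ?_⟩
  · have : R (n.choose 2) = LL n :=
      eq_of_subset_of_card_le (sL _ (hR _ le_rfl).1) (by rw [(hR _ le_rfl).2, cL])
    rw [this]
    intro x y
    simp only [LL, mem_filter, mem_univ, true_and]; omega
  · intro i hi
    obtain ⟨h1, h2⟩ := hR i hi.le
    have := hs (R i) h1 (fun h => by rw [h] at h2; omega)
    have e1 : R (i + 1) = s (R i) := Function.iterate_succ_apply' _ _ _
    rw [e1]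
    exact this.2
  · unfold numFPP
    refine le_trans (card_le_card (t := Ico (n.choose 2 - n / 2) (n.choose 2 + 1)) ?_) ?_
    · intro i hi
      simp only [mem_filter, mem_range, mem_Ico] at hi ⊢
      refine ⟨?_, hi.1⟩
      by_contra hlt
      obtain ⟨h1, h2⟩ := hR i (by omega)
      exact nf _ h1 (by omega) hi.2
    · rw [Nat.card_Ico]; omega

lemma big (n : ℕ) (hn : 3 ≤ n) :
    IsLeast {m | ∃ R, MaxChain n R ∧ numFPP n R = m} (n / 2 + 1) := by
  constructor
  · obtain ⟨R, h1, h2⟩ := upper (n := n) (e := 3 - n % 2) (by omega) (by omega) (by omega) (by omega)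
    exact ⟨R, h1, le_antisymm h2 (lower hn h1)⟩
  · rintro m ⟨R, h1, rfl⟩
    exact lower hn h1

lemma one_le {n : ℕ} (hn : 1 ≤ n) {R : ℕ → Finset (Fin n × Fin n)} (h : MaxChain n R) :
    1 ≤ numFPP n R := by
  classical
  have hF : FPP (R (n.choose 2)) := by
    by_contra hf
    obtain ⟨g, -, hg⟩ := free (h.1 _ le_rfl) hf
    have := hg ⟨0, hn⟩
    simp only [inc, mem_filter, mem_univ, true_and] at this
    exact (h.2.2.1 _ _).elim this.1 this.2
  unfold numFPP
  exact card_pos.2 ⟨n.choose 2, by simpa using hF⟩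

theorem result (n : ℕ) (hn : 1 ≤ n) :
    IsLeast {m | ∃ R, MaxChain n R ∧ numFPP n R = m} (if n = 2 then 1 else n / 2 + 1) := by
  classical
  by_cases h3 : 3 ≤ n
  · rw [if_neg (by omega)]
    exact big n h3
  have e : (if n = 2 then 1 else n / 2 + 1) = 1 := by split_ifs <;> omega
  rw [e]
  refine ⟨?_, by rintro m ⟨R, h1, rfl⟩; exact one_le hn h1⟩
  obtain rfl | rfl : n = 1 ∨ n = 2 := by omega
  · have h : MaxChain 1 (fun _ => univ.diag) := by
      refine ⟨fun i _ => ?_, rfl, by decide, fun i hi => absurd hi (by simp)⟩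
      beta_reduce; unfold IsOrd; decide
    refine ⟨_, h, le_antisymm ?_ (one_le le_rfl h)⟩
    unfold numFPP
    exact (card_filter_le _ _).trans (by simp)
  · have h : MaxChain 2 (fun i => if i = 0 then univ.diag else LL 2) := by
      refine ⟨fun i _ => ?_, rfl, by decide, fun i hi => ?_⟩
      · by_cases h0 : i = 0
        · simp only [h0, if_true]; unfold IsOrd; decide
        · simp only [h0, if_false]; unfold IsOrd; decide
      · obtain rfl : i = 0 := by simpa using hi
        decide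
    refine ⟨_, h, le_antisymm ?_ (one_le hn h)⟩
    unfold numFPP
    refine le_trans (card_le_card (t := {1}) ?_) (by simp)
    intro i hi
    simp only [mem_filter, mem_range, mem_singleton, Nat.choose_self] at hi ⊢
    by_contra h1
    obtain rfl : i = 0 := by omega
    have hF := hi.2
    simp only [if_true] at hF
    exact absurd (hF ![1, 0] (by decide)) (by decide)

end Pool.Agent.Results.MP_eb30e1_co.Q1
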